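import Mathlib

/-!
# Counting monomials of weight `m` with many factors

The variables are indexed by `Fin k × Fin n`; the variable with index `(j, i)` has weight `j + 1`.
For `m ≥ 2 k M ^ 2`, `M = k n - 1`, the number of monomials of weight `m` and degree at least `p`
is at most `e √M (2 √k) ^ n exp (-(p / m) M / 2) m ^ M / (M! (k!) ^ n)`.
-/

namespace Pool.Agent.H13.KB

open Finset Real

/-- the weight of a monomial -/
def wt {k n : ℕ} (a : Fin k × Fin n → ℕ) : ℕ := ∑ x, (x.1.val + 1) * a x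

/-- the degree (number of factors) of a monomial -/
def dg {k n : ℕ} (a : Fin k × Fin n → ℕ) : ℕ := ∑ x, a x

/-- the monomials of weight `m` -/
def mon (k n m : ℕ) : Finset (Fin k × Fin n → ℕ) :=
  (Fintype.piFinset fun _ => range (m + 1)).filter fun a => wt a = m

/-- the monomials of weight `m` with at least `p` factors -/
def high (k n m p : ℕ) : Finset (Fin k × Fin n → ℕ) :=
  (mon k n m).filter fun a => p ≤ dg a

lemma mem_mon {k n m : ℕ} {a : Fin k × Fin n → ℕ} : a ∈ mon k n m ↔ wt a = m := by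
  unfold mon
  rw [mem_filter, Fintype.mem_piFinset]
  constructor
  · exact fun h => h.2
  · intro h
    refine ⟨fun x => ?_, h⟩
    rw [mem_range]
    have h1 : (x.1.val + 1) * a x ≤ wt a :=
      single_le_sum (f := fun x : Fin k × Fin n => (x.1.val + 1) * a x) (fun _ _ => Nat.zero_le _)
        (mem_univ x)
    rw [h] at h1
    have h2 : a x ≤ (x.1.val + 1) * a x := Nat.le_mul_of_pos_left _ (Nat.succ_pos _)
    omega

lemma mem_high {k n m p : ℕ} {a : Fin k × Fin n → ℕ} :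
    a ∈ high k n m p ↔ wt a = m ∧ p ≤ dg a := by
  unfold high
  rw [mem_filter, mem_mon]

/-- the product of geometric series -/
lemma geo_sum {ι : Type*} [Fintype ι] [DecidableEq ι] (N : ℕ) (c : ι → ℝ) (hc : ∀ x, 0 < c x) :
    ∑ b ∈ Fintype.piFinset (fun _ : ι => range N), exp (-∑ x, c x * b x) ≤
      ∏ x, (1 + c x) / c x := by
  have h1 : ∀ b : ι → ℕ, exp (-∑ x, c x * b x) = ∏ x, exp (-c x) ^ b x := by
    intro b
    rw [← sum_neg_distrib, exp_sum]
    refine prod_congr rfl fun x _ => ?_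
    rw [← exp_nat_mul]
    congr 1
    ring
  simp_rw [h1]
  rw [← Finset.prod_univ_sum (fun _ : ι => range N) (fun x j => exp (-c x) ^ j)]
  refine prod_le_prod (fun x _ => sum_nonneg fun j _ => by positivity) fun x _ => ?_
  have hcx := hc x
  have h2 : exp (-c x) < 1 := by
    rw [exp_lt_one_iff]
    linarith
  have h5 : (∑ j ∈ range N, exp (-c x) ^ j) * (1 - exp (-c x)) = 1 - exp (-c x) ^ N :=
    geom_sum_mul_neg _ _
  have h6 : 0 ≤ exp (-c x) ^ N := by positivity
  have h7 : 0 ≤ ∑ j ∈ range N, exp (-c x) ^ j := sum_nonneg fun j _ => by positivity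
  have h8 : c x / (1 + c x) ≤ 1 - exp (-c x) := by
    have h9 : exp (-c x) * (1 + c x) ≤ 1 := by
      have h10 : 1 + c x ≤ exp (c x) := by
        have := add_one_le_exp (c x)
        linarith
      calc exp (-c x) * (1 + c x) ≤ exp (-c x) * exp (c x) := by gcongr
        _ = 1 := by rw [← exp_add]; simp
    rw [div_le_iff₀ (by linarith)]
    nlinarith
  have h11 : (∑ j ∈ range N, exp (-c x) ^ j) * (c x / (1 + c x)) ≤ 1 := by
    calc (∑ j ∈ range N, exp (-c x) ^ j) * (c x / (1 + c x))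
        ≤ (∑ j ∈ range N, exp (-c x) ^ j) * (1 - exp (-c x)) := by gcongr
      _ ≤ 1 := by rw [h5]; linarith
  rw [le_div_iff₀ hcx]
  rw [← mul_div_assoc, div_le_one (by linarith)] at h11
  exact h11

/-- `∏ (j + 1) / (j + 1/2) ≤ 2 √k` -/
lemma wallis (k : ℕ) (hk : 1 ≤ k) :
    ∏ j ∈ range k, ((j : ℝ) + 1) / ((j : ℝ) + 1 / 2) ≤ 2 * √k := by
  induction k, hk using Nat.le_induction with
  | base => norm_num
  | succ k hk ih =>
    rw [prod_range_succ]
    have hk0 : (0 : ℝ) < k := by exact_mod_cast hk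
    have h1 : ((k : ℝ) + 1) / ((k : ℝ) + 1 / 2) ≤ √((k : ℝ) + 1) / √k := by
      rw [div_le_div_iff₀ (by positivity) (by positivity)]
      have h2 : ((k : ℝ) + 1) * √k ≤ √((((k : ℝ) + 1) * √k) ^ 2) := by
        rw [Real.sqrt_sq (by positivity)]
      refine h2.trans ?_
      have h3 : √((k : ℝ) + 1) * ((k : ℝ) + 1 / 2) = √(((k : ℝ) + 1) * ((k : ℝ) + 1 / 2) ^ 2) := by
        rw [Real.sqrt_mul (by positivity), Real.sqrt_sq (by positivity)]
      rw [h3]
      refine Real.sqrt_le_sqrt ?_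
      rw [mul_pow, Real.sq_sqrt hk0.le]
      nlinarith
    calc (∏ j ∈ range k, ((j : ℝ) + 1) / ((j : ℝ) + 1 / 2)) * (((k : ℝ) + 1) / ((k : ℝ) + 1 / 2))
        ≤ (2 * √k) * (√((k : ℝ) + 1) / √k) := by gcongr
      _ = 2 * √((k + 1 : ℕ) : ℝ) := by
        push_cast
        field_simp

/-- Stirling's upper bound -/
lemma factorial_le (M : ℕ) (hM : 1 ≤ M) :
    (M.factorial : ℝ) ≤ exp 1 * √M * ((M : ℝ) / exp 1) ^ M := by
  obtain ⟨l, rfl⟩ : ∃ l, M = l + 1 := ⟨M - 1, by omega⟩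
  have h1 := Stirling.stirlingSeq'_antitone (Nat.zero_le l)
  simp only [Function.comp, Nat.succ_eq_add_one, zero_add] at h1
  rw [Stirling.stirlingSeq_one] at h1
  unfold Stirling.stirlingSeq at h1
  have h2 : (0 : ℝ) < √(2 * ((l + 1 : ℕ) : ℝ)) * (((l + 1 : ℕ) : ℝ) / exp 1) ^ (l + 1) := by
    positivity
  rw [div_le_iff₀ h2] at h1
  refine h1.trans (le_of_eq ?_)
  rw [Real.sqrt_mul (by norm_num)]
  field_simp

/-- products over all variables but the first one -/
lemma prod_ne {k n : ℕ} (x₀ : Fin k × Fin n) (f : Fin k × Fin n → ℝ) (h0 : f x₀ ≠ 0) :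
    ∏ x : {x : Fin k × Fin n // x ≠ x₀}, f x = (∏ x, f x) / f x₀ := by
  rw [eq_div_iff h0]
  have h1 : ∏ x, f x = (∏ x ∈ univ.erase x₀, f x) * f x₀ := by
    rw [Finset.prod_erase_mul _ _ (mem_univ _)]
  rw [h1]
  congr 1
  rw [← Finset.prod_subtype (univ.erase x₀) (p := fun x => x ≠ x₀) (by simp) f]

/-- the Chernoff bound -/
lemma card_high_le {k n m p : ℕ} (hk : 1 ≤ k) (hn : 1 ≤ n) (S θ : ℝ) (hθ : 0 ≤ θ) (hS : θ < S) :
    ((high k n m p).card : ℝ) ≤ exp (S * m - θ * p) *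
      ∏ x : {x : Fin k × Fin n // x ≠ (⟨0, hk⟩, ⟨0, hn⟩)},
        (1 + (S * ((x.1.1.val : ℝ) + 1) - θ)) / (S * ((x.1.1.val : ℝ) + 1) - θ) := by
  classical
  set x₀ : Fin k × Fin n := (⟨0, hk⟩, ⟨0, hn⟩) with hx₀
  let W : ({x : Fin k × Fin n // x ≠ x₀} → ℕ) → ℕ := fun b => ∑ x, (x.1.1.val + 1) * b x
  let D : ({x : Fin k × Fin n // x ≠ x₀} → ℕ) → ℕ := fun b => ∑ x, b x
  let T : Finset ({x : Fin k × Fin n // x ≠ x₀} → ℕ) :=
    (Fintype.piFinset fun _ => range (m + 1)).filter fun b => W b ≤ m ∧ p ≤ D b + (m - W b)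
  have hsplit : ∀ (g : Fin k × Fin n → ℕ), ∑ x, g x = (∑ x : {x // x ≠ x₀}, g x) + g x₀ := by
    intro g
    rw [← Finset.sum_erase_add univ g (mem_univ x₀)]
    congr 1
    rw [← Finset.sum_subtype (univ.erase x₀) (p := fun x => x ≠ x₀) (by simp) g]
  have hcard : (high k n m p).card ≤ T.card := by
    refine card_le_card_of_injOn (fun a x => a x.1) ?_ ?_
    · intro a ha
      rw [mem_coe, mem_high] at ha
      have h1 : wt a = W (fun x => a x.1) + a x₀ := by
        unfold wt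
        rw [hsplit fun x => (x.1.val + 1) * a x]
        simp [W, x₀]
      have h2 : dg a = D (fun x => a x.1) + a x₀ := hsplit a
      rw [mem_coe, mem_filter, Fintype.mem_piFinset]
      refine ⟨fun x => ?_, ?_, ?_⟩
      · have h3 := (mem_mon (m := m)).2 ha.1
        unfold mon at h3
        rw [mem_filter, Fintype.mem_piFinset] at h3
        exact h3.1 x.1
      · show W (fun x => a x.1) ≤ m
        omega
      · show p ≤ D (fun x => a x.1) + (m - W (fun x => a x.1))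
        omega
    · intro a ha a' ha' h
      rw [mem_coe, mem_high] at ha ha'
      have h1 : wt a = W (fun x => a x.1) + a x₀ := by
        unfold wt
        rw [hsplit fun x => (x.1.val + 1) * a x]
        simp [W, x₀]
      have h2 : wt a' = W (fun x => a' x.1) + a' x₀ := by
        unfold wt
        rw [hsplit fun x => (x.1.val + 1) * a' x]
        simp [W, x₀]
      have h3 : W (fun x => a x.1) = W (fun x => a' x.1) := by
        simp only at h
        rw [h]
      funext x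
      by_cases hx : x = x₀
      · subst hx
        omega
      · exact congrFun h ⟨x, hx⟩
  have hT : (T.card : ℝ) ≤ ∑ b ∈ T, exp (S * m - θ * p) *
      exp (-∑ x : {x : Fin k × Fin n // x ≠ x₀}, (S * ((x.1.1.val : ℝ) + 1) - θ) * b x) := by
    rw [card_eq_sum_ones]
    push_cast
    refine sum_le_sum fun b hb => ?_
    rw [mem_filter] at hb
    obtain ⟨-, h1, h2⟩ := hb
    rw [← exp_add]
    refine Real.one_le_exp ?_
    have e1 : ∑ x : {x : Fin k × Fin n // x ≠ x₀}, (S * ((x.1.1.val : ℝ) + 1) - θ) * b x =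
        S * (W b : ℝ) - θ * (D b : ℝ) := by
      simp only [W, D]
      push_cast
      rw [mul_sum, mul_sum, ← sum_sub_distrib]
      refine sum_congr rfl fun x _ => ?_
      ring
    rw [e1]
    have h3 : (W b : ℝ) ≤ m := by exact_mod_cast h1
    have h4 : (p : ℝ) ≤ D b + (m - W b) := by
      have : (p : ℝ) ≤ ((D b + (m - W b) : ℕ) : ℝ) := by exact_mod_cast h2
      rw [Nat.cast_add, Nat.cast_sub h1] at this
      exact this
    nlinarith [mul_nonneg hθ (sub_nonneg.2 h4), mul_nonneg (sub_nonneg.2 hS.le) (sub_nonneg.2 h3)]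
  have hsum : ∑ b ∈ T, exp (S * m - θ * p) *
      exp (-∑ x : {x : Fin k × Fin n // x ≠ x₀}, (S * ((x.1.1.val : ℝ) + 1) - θ) * b x) ≤
      exp (S * m - θ * p) * ∏ x : {x : Fin k × Fin n // x ≠ x₀},
        (1 + (S * ((x.1.1.val : ℝ) + 1) - θ)) / (S * ((x.1.1.val : ℝ) + 1) - θ) := by
    rw [← mul_sum]
    refine mul_le_mul_of_nonneg_left ?_ (exp_pos _).le
    refine le_trans (sum_le_sum_of_subset_of_nonneg (filter_subset _ _) fun _ _ _ =>
      (exp_pos _).le) (geo_sum (m + 1) _ fun x => ?_)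
    have : (0 : ℝ) ≤ (x.1.1.val : ℝ) := by positivity
    nlinarith
  calc ((high k n m p).card : ℝ) ≤ T.card := by exact_mod_cast hcard
    _ ≤ _ := hT
    _ ≤ _ := hsum

/-- `∏ 1 / (w - 1/2)` over all variables -/
lemma prod_half (k n : ℕ) (hk : 1 ≤ k) :
    ∏ x : Fin k × Fin n, ((x.1.val : ℝ) + 1 - 1 / 2)⁻¹ ≤ (2 * √k) ^ n / (k.factorial : ℝ) ^ n := by
  rw [Fintype.prod_prod_type]
  simp only [prod_const, card_univ, Fintype.card_fin]
  rw [prod_pow, ← div_pow]
  refine pow_le_pow_left₀ (prod_nonneg fun j _ => by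
    have : (0 : ℝ) ≤ (j.val : ℝ) := by positivity
    have : (0 : ℝ) ≤ (j.val : ℝ) + 1 - 1 / 2 := by linarith
    positivity) ?_ n
  rw [Fin.prod_univ_eq_prod_range (fun j => ((j : ℝ) + 1 - 1 / 2)⁻¹) k]
  have h1 := wallis k hk
  rw [le_div_iff₀ (by positivity)]
  refine le_trans (le_of_eq ?_) h1
  rw [← Finset.prod_range_add_one_eq_factorial]
  push_cast
  rw [← prod_mul_distrib]
  refine prod_congr rfl fun j _ => ?_
  have : (j : ℝ) + 1 - 1 / 2 = j + 1 / 2 := by ring
  rw [this, div_eq_mul_inv]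
  ring

/-- The number of monomials of weight `m` with at least `p` factors. -/
theorem card_high {k n m p : ℕ} (hk : 1 ≤ k) (hn : 1 ≤ n) (M : ℕ) (hM : M + 1 = k * n)
    (hM1 : 1 ≤ M) (hm : 2 * k * M ^ 2 ≤ m) :
    ((high k n m p).card : ℝ) ≤ exp 1 * √M * (2 * √k) ^ n * exp (-((p : ℝ) / m) * (M / 2)) *
      (m ^ M / (M.factorial * (k.factorial : ℝ) ^ n)) := by
  have hM0 : (0 : ℝ) < M := by exact_mod_cast hM1
  have hk0 : (1 : ℝ) ≤ k := by exact_mod_cast hk
  have hmpos : 0 < m := by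
    refine lt_of_lt_of_le ?_ hm
    positivity
  have hm0 : (0 : ℝ) < m := by exact_mod_cast hmpos
  have hmr : 2 * (k : ℝ) * M ^ 2 ≤ m := by exact_mod_cast hm
  set S : ℝ := M / m with hS
  have hS0 : 0 < S := by positivity
  set x₀ : Fin k × Fin n := (⟨0, hk⟩, ⟨0, hn⟩) with hx₀
  have h1 := card_high_le (m := m) (p := p) hk hn S (S / 2) (by positivity) (by linarith)
  have h2 : S * m - S / 2 * p = M + -((p : ℝ) / m) * (M / 2) := by
    rw [hS]
    field_simp
    ring
  rw [h2, exp_add] at h1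
  -- the product
  have h3 : ∏ x : {x : Fin k × Fin n // x ≠ x₀},
      (1 + (S * ((x.1.1.val : ℝ) + 1) - S / 2)) / (S * ((x.1.1.val : ℝ) + 1) - S / 2) ≤
      (1 + S * k) ^ M * ((S⁻¹) ^ M *
        ∏ x : {x : Fin k × Fin n // x ≠ x₀}, ((x.1.1.val : ℝ) + 1 - 1 / 2)⁻¹) := by
    have hc : Fintype.card {x : Fin k × Fin n // x ≠ x₀} = M := by
      rw [Fintype.card_subtype_compl, Fintype.card_subtype_eq, Fintype.card_prod,
        Fintype.card_fin, Fintype.card_fin]
      omega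
    have e1 : (1 + S * k) ^ M * ((S⁻¹) ^ M *
        ∏ x : {x : Fin k × Fin n // x ≠ x₀}, ((x.1.1.val : ℝ) + 1 - 1 / 2)⁻¹) =
        ∏ x : {x : Fin k × Fin n // x ≠ x₀}, ((1 + S * k) * (S⁻¹ *
          ((x.1.1.val : ℝ) + 1 - 1 / 2)⁻¹)) := by
      rw [prod_mul_distrib, prod_mul_distrib, prod_const, prod_const, card_univ, hc]
    rw [e1]
    refine prod_le_prod (fun x _ => ?_) fun x _ => ?_
    · have : (0 : ℝ) ≤ (x.1.1.val : ℝ) := by positivity
      have h5 : 0 < S * ((x.1.1.val : ℝ) + 1) - S / 2 := by nlinarith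
      positivity
    · have h4 : (0 : ℝ) ≤ (x.1.1.val : ℝ) := by positivity
      have h5 : (0 : ℝ) < (x.1.1.val : ℝ) + 1 - 1 / 2 := by linarith
      have h6 : S * ((x.1.1.val : ℝ) + 1) - S / 2 = S * ((x.1.1.val : ℝ) + 1 - 1 / 2) := by ring
      rw [h6, div_eq_mul_inv, mul_inv]
      have h7 : (x.1.1.val : ℝ) + 1 ≤ k := by exact_mod_cast x.1.1.isLt
      have h8 : S * ((x.1.1.val : ℝ) + 1 - 1 / 2) ≤ S * k := by
        refine mul_le_mul_of_nonneg_left ?_ hS0.le
        linarith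
      gcongr
  have h4 : ∏ x : {x : Fin k × Fin n // x ≠ x₀}, ((x.1.1.val : ℝ) + 1 - 1 / 2)⁻¹ ≤
      (2 * √k) ^ n / (k.factorial : ℝ) ^ n / 2 := by
    rw [prod_ne x₀ (fun x : Fin k × Fin n => ((x.1.val : ℝ) + 1 - 1 / 2)⁻¹) (by simp [x₀]; norm_num)]
    have h5 : (((x₀.1.val : ℕ) : ℝ) + 1 - 1 / 2)⁻¹ = 2 := by
      simp [x₀]
      norm_num
    simp only [h5]
    exact div_le_div_of_nonneg_right (prod_half k n hk) (by norm_num)
  have h5 : (1 + S * k) ^ M ≤ 2 := by
    have h6 : S * k * M ≤ 1 / 2 := by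
      rw [hS, div_mul_eq_mul_div, div_mul_eq_mul_div, div_le_iff₀ hm0]
      nlinarith
    calc (1 + S * k) ^ M ≤ (exp (S * k)) ^ M := by
          have := add_one_le_exp (S * k)
          gcongr
          linarith
      _ = exp (S * k * M) := by rw [← exp_nat_mul]; congr 1; ring
      _ ≤ exp (1 / 2) := exp_le_exp.2 h6
      _ ≤ 2 := by
          have h7 : exp (1 / 2 : ℝ) ^ 2 ≤ 4 := by
            rw [← exp_nat_mul]
            norm_num
            have := exp_one_lt_d9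
            linarith
          nlinarith [exp_pos (1 / 2 : ℝ)]
  have h6 : (S⁻¹) ^ M = (m : ℝ) ^ M / M ^ M := by
    rw [hS, inv_div, div_pow]
  have h7 : exp (M : ℝ) / (M : ℝ) ^ M ≤ exp 1 * √M / M.factorial := by
    rw [div_le_div_iff₀ (by positivity) (by positivity)]
    have h8 := factorial_le M hM1
    have h9 : ((M : ℝ) / exp 1) ^ M = (M : ℝ) ^ M / exp (M : ℝ) := by
      rw [div_pow, ← exp_nat_mul, mul_one]
    rw [h9] at h8
    calc exp (M : ℝ) * (M.factorial : ℝ) ≤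
          exp (M : ℝ) * (exp 1 * √M * ((M : ℝ) ^ M / exp (M : ℝ))) := by gcongr
      _ = exp 1 * √M * (M : ℝ) ^ M := by field_simp
  have h10 : (0 : ℝ) ≤ (2 * √k) ^ n / (k.factorial : ℝ) ^ n / 2 := by positivity
  have h11 : (0 : ℝ) ≤ ∏ x : {x : Fin k × Fin n // x ≠ x₀}, ((x.1.1.val : ℝ) + 1 - 1 / 2)⁻¹ :=
    prod_nonneg fun x _ => by
      have : (0 : ℝ) ≤ (x.1.1.val : ℝ) := by positivity
      have : (0 : ℝ) ≤ (x.1.1.val : ℝ) + 1 - 1 / 2 := by linarith
      positivity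
  calc ((high k n m p).card : ℝ)
      ≤ exp M * exp (-((p : ℝ) / m) * (M / 2)) * ((1 + S * k) ^ M * ((S⁻¹) ^ M *
        ∏ x : {x : Fin k × Fin n // x ≠ x₀}, ((x.1.1.val : ℝ) + 1 - 1 / 2)⁻¹)) := by
          refine h1.trans ?_
          gcongr
    _ ≤ exp M * exp (-((p : ℝ) / m) * (M / 2)) * (2 * ((S⁻¹) ^ M *
        ((2 * √k) ^ n / (k.factorial : ℝ) ^ n / 2))) := by gcongr
    _ = (exp M / M ^ M) * (exp (-((p : ℝ) / m) * (M / 2)) * (m : ℝ) ^ M *
        ((2 * √k) ^ n / (k.factorial : ℝ) ^ n)) := by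
          rw [h6]
          ring
    _ ≤ (exp 1 * √M / M.factorial) * (exp (-((p : ℝ) / m) * (M / 2)) * (m : ℝ) ^ M *
        ((2 * √k) ^ n / (k.factorial : ℝ) ^ n)) := by gcongr
    _ = _ := by
          field_simp

end Pool.Agent.H13.KB
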