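import Pool.Agent.H13.KB.Chern
import Mathlib

/-!
# Polynomials of weight `m` which vanish to high order at a point

A polynomial of degree `< p` which vanishes to order `≥ p` at a point is zero.  So a space of
polynomials of weight `m` all of which vanish to order `≥ p` at one point has dimension at most
the number of monomials of weight `m` and degree `≥ p`.
-/

namespace Pool.Agent.H13.KB

open Finset MvPolynomial

section translate

variable {σ : Type*} (c : σ → ℂ)

/-- the ideal of polynomials vanishing at the point `c` -/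
noncomputable def ptIdeal (c : σ → ℂ) : Ideal (MvPolynomial σ ℂ) :=
  Ideal.span (Set.range fun i => X i - C (c i))

/-- translation -/
noncomputable def tr (c : σ → ℂ) : MvPolynomial σ ℂ →ₐ[ℂ] MvPolynomial σ ℂ :=
  aeval fun i => X i + C (c i)

lemma tr_tr (Q : MvPolynomial σ ℂ) : tr (-c) (tr c Q) = Q := by
  have h : (tr (-c)).comp (tr c) = AlgHom.id ℂ _ := by
    ext i
    simp [tr]
  exact congrArg (fun f => f Q) h

lemma tr_injective : Function.Injective (tr c) := fun P Q h => by
  rw [← tr_tr c P, ← tr_tr c Q, h]

lemma totalDegree_tr_le (Q : MvPolynomial σ ℂ) : (tr c Q).totalDegree ≤ Q.totalDegree := by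
  unfold tr
  rw [aeval_def, eval₂_eq]
  refine (totalDegree_finsetSum _ _).trans (Finset.sup_le fun s hs => ?_)
  refine (totalDegree_mul _ _).trans ?_
  have h1 : (algebraMap ℂ (MvPolynomial σ ℂ) (coeff s Q)).totalDegree = 0 := by
    rw [algebraMap_eq]
    exact totalDegree_C _
  rw [h1, zero_add]
  refine (totalDegree_finsetProd _ _).trans ?_
  have h2 : ∀ i ∈ s.support, ((X i + C (c i) : MvPolynomial σ ℂ) ^ s i).totalDegree ≤ s i := by
    intro i _
    refine (totalDegree_pow _ _).trans ?_
    have h3 : (X i + C (c i) : MvPolynomial σ ℂ).totalDegree ≤ 1 := by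
      refine (totalDegree_add _ _).trans ?_
      rw [totalDegree_X, totalDegree_C]
      simp
    calc s i * _ ≤ s i * 1 := Nat.mul_le_mul_left _ h3
      _ = s i := mul_one _
  refine (Finset.sum_le_sum h2).trans ?_
  exact le_totalDegree hs

lemma map_ptIdeal : (ptIdeal c).map (tr c) = idealOfVars σ ℂ := by
  unfold ptIdeal idealOfVars
  rw [Ideal.map_span]
  congr 1
  rw [← Set.range_comp]
  congr 1
  funext i
  simp [tr]

/-- A polynomial of degree `< p` vanishing to order `≥ p` at a point is zero. -/
lemma eq_zero_of_low {p : ℕ} {Q : MvPolynomial σ ℂ} (h : Q ∈ ptIdeal c ^ p)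
    (hd : ∀ s ∈ Q.support, s.degree < p) : Q = 0 := by
  have h1 : tr c Q ∈ idealOfVars σ ℂ ^ p := by
    rw [← map_ptIdeal c, ← Ideal.map_pow]
    exact Ideal.mem_map_of_mem _ h
  rw [mem_pow_idealOfVars_iff'] at h1
  by_contra hQ
  have hne : Q.support.Nonempty := by
    rwa [Finset.nonempty_iff_ne_empty, Ne, support_eq_empty]
  have h2 : Q.totalDegree < p := by
    unfold totalDegree
    rw [Finset.sup_lt_iff]
    · intro s hs
      exact hd s hs
    · obtain ⟨s, hs⟩ := hne
      exact lt_of_le_of_lt (Nat.zero_le _) (hd s hs)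
  have h3 : tr c Q ≠ 0 := fun h0 => hQ (tr_injective c (by rw [h0, map_zero]))
  apply h3
  ext s
  rw [coeff_zero]
  by_cases hs : s.degree < p
  · exact h1 s hs
  · by_contra hc
    have h4 : s ∈ (tr c Q).support := mem_support_iff.2 hc
    have h5 := le_totalDegree h4
    have h6 := totalDegree_tr_le c Q
    have h7 : s.degree = s.sum fun _ e => e := rfl
    omega

end translate

/-- the weights of the variables -/
def wts (k n : ℕ) : Fin k × Fin n → ℕ := fun x => x.1.val + 1

/-- A space of polynomials of weight `m`, all of which vanish to order `≥ p` at one point, has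
dimension at most the number of monomials of weight `m` with at least `p` factors. -/
theorem finrank_le {k n m p : ℕ} (c : Fin k × Fin n → ℂ)
    (U : Submodule ℂ (MvPolynomial (Fin k × Fin n) ℂ))
    (hU : ∀ Q ∈ U, IsWeightedHomogeneous (wts k n) Q m) (hv : ∀ Q ∈ U, Q ∈ ptIdeal c ^ p) :
    Module.finrank ℂ U ≤ (high k n m p).card := by
  classical
  let L : U →ₗ[ℂ] (high k n m p → ℂ) :=
    { toFun := fun Q a => coeff (Finsupp.equivFunOnFinite.symm a.1) Q.1
      map_add' := fun _ _ => by funext a; simp
      map_smul' := fun _ _ => by funext a; simp }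
  have hL : Function.Injective L := by
    rw [← LinearMap.ker_eq_bot, LinearMap.ker_eq_bot']
    intro Q hQ
    apply Subtype.ext
    refine eq_zero_of_low c (hv Q.1 Q.2) fun s hs => ?_
    by_contra hlt
    push Not at hlt
    have h1 : wt (⇑s) = m := by
      have h2 := hU Q.1 Q.2 (mem_support_iff.1 hs)
      rw [← h2, Finsupp.weight_apply, Finsupp.sum_fintype _ _ (by simp)]
      unfold wt wts
      refine sum_congr rfl fun x _ => ?_
      rw [smul_eq_mul, mul_comm]
    have h3 : dg (⇑s) = s.degree := by
      rw [Finsupp.degree_eq_sum]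
      rfl
    have h4 : (⇑s) ∈ high k n m p := mem_high.2 ⟨h1, by rw [h3]; exact hlt⟩
    have h5 := congrFun hQ ⟨⇑s, h4⟩
    have h6 : coeff s Q.1 = 0 := by
      have : Finsupp.equivFunOnFinite.symm (⇑s) = s := by
        ext x
        simp
      rw [← this]
      exact h5
    exact (mem_support_iff.1 hs) h6
  have h1 := LinearMap.finrank_le_finrank_of_injective hL
  rwa [Module.finrank_fintype_fun_eq_card, Fintype.card_coe] at h1

end Pool.Agent.H13.KB
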